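import Mathlib
import Pool.Agent.Lib.MP_f44088_al.FB3.Fb

/-! A finite soluble A-group whose order has at most `m` prime divisors has derived length at most `m` (Taunt 1949). -/

set_option autoImplicit false

namespace Pool.Agent.Lib.MP_f44088_fbt

/-- all `r`-subgroups are abelian -/
def AG (G : Type) [Group G] : Prop :=
  ∀ r : ℕ, r.Prime → ∀ H : Subgroup G, IsPGroup r H → ∀ x ∈ H, ∀ y ∈ H, x * y = y * x

theorem ag_of_sylow {G : Type} [Group G] [Finite G]
    (h : ∀ r : ℕ, r.Prime → ∃ P : Sylow r G, ∀ x ∈ P, ∀ y ∈ P, x * y = y * x) : AG G := by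
  intro r hr H hH x hx y hy
  have : Fact r.Prime := ⟨hr⟩
  obtain ⟨P, hP⟩ := h r hr
  obtain ⟨Q, hQ⟩ := hH.exists_le_sylow
  obtain ⟨g, hg⟩ := MulAction.exists_smul_eq G P Q
  have key : ∀ z ∈ Q, ∃ z' ∈ P, z = g * z' * g⁻¹ := by
    intro z hz
    rw [← hg] at hz
    obtain ⟨z', hz', e⟩ := hz
    exact ⟨z', hz', e.symm⟩
  obtain ⟨x', hx', rfl⟩ := key x (hQ hx)
  obtain ⟨y', hy', rfl⟩ := key y (hQ hy)
  have h1 := hP x' hx' y' hy'
  calc g * x' * g⁻¹ * (g * y' * g⁻¹) = g * (x' * y') * g⁻¹ := by group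
    _ = g * (y' * x') * g⁻¹ := by rw [h1]
    _ = g * y' * g⁻¹ * (g * x' * g⁻¹) := by group

theorem AG.quot {G : Type} [Group G] [Finite G] (h : AG G) (N : Subgroup G) [N.Normal] :
    AG (G ⧸ N) := by
  apply ag_of_sylow
  intro r hr
  have : Fact r.Prime := ⟨hr⟩
  obtain ⟨P⟩ : Nonempty (Sylow r G) := inferInstance
  refine ⟨P.mapSurjective (QuotientGroup.mk'_surjective N), ?_⟩
  intro x hx y hy
  have hx' : x ∈ (P : Subgroup G).map (QuotientGroup.mk' N) := hx
  have hy' : y ∈ (P : Subgroup G).map (QuotientGroup.mk' N) := hy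
  obtain ⟨a, ha, rfl⟩ := Subgroup.mem_map.1 hx'
  obtain ⟨b, hb, rfl⟩ := Subgroup.mem_map.1 hy'
  rw [← map_mul, ← map_mul, h r hr P P.isPGroup' a ha b hb]

/-- the statement of the theorem for `m` -/
def St (m : ℕ) : Prop :=
  ∀ (G : Type) [Group G] [Finite G], Group.IsSolvable G → AG G → (Nat.card G).primeFactors.card ≤ m →
    derivedSeries G m = ⊥

/-- the derived series of a subgroup, as subgroups of `G` -/
def Dn {G : Type} [Group G] (C : Subgroup G) : ℕ → Subgroup G
  | 0 => C
  | k + 1 => ⁅Dn C k, Dn C k⁆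

theorem Dn_normal {G : Type} [Group G] (C : Subgroup G) (hC : C.Normal) : ∀ k, (Dn C k).Normal
  | 0 => hC
  | k + 1 => by
    have := Dn_normal C hC k
    exact Subgroup.commutator_normal _ _

theorem Dn_le {G : Type} [Group G] (C : Subgroup G) (hC : C.Normal) : ∀ k, Dn C k ≤ C
  | 0 => le_rfl
  | k + 1 => by
    have := Dn_normal C hC k
    exact (Subgroup.commutator_le_left _ _).trans (Dn_le C hC k)

theorem Dn_le_der {G : Type} [Group G] (C : Subgroup G) : ∀ k, Dn C k ≤ derivedSeries G k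
  | 0 => le_top
  | k + 1 => Subgroup.commutator_mono (Dn_le_der C k) (Dn_le_der C k)

theorem core (m : ℕ) (ih : St m) (G : Type) [Group G] [Finite G] (hs : Group.IsSolvable G) (ha : AG G)
    (hc : (Nat.card G).primeFactors.card ≤ m + 1) (p : ℕ) (hp : p.Prime) (hd : p ∣ Nat.card G)
    (hN : ∀ N : Subgroup G, N.Normal → (Nat.card N).Coprime p → N = ⊥) :
    derivedSeries G (m + 1) = ⊥ := by
  have : Fact p.Prime := ⟨hp⟩
  have hfin : Set.Finite {N : Subgroup G | N.Normal ∧ IsPGroup p N} := Set.toFinite _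
  obtain ⟨F, hF⟩ := hfin.exists_maximal ⟨⊥, inferInstance, IsPGroup.of_bot⟩
  obtain ⟨⟨hFn, hFp⟩, hFm⟩ := hF
  have hmax : ∀ N : Subgroup G, N.Normal → IsPGroup p N → N ≤ F := by
    intro N hN hNp
    have := hFn
    have := hN
    have h1 : F ⊔ N ≤ F := hFm ⟨inferInstance, hFp.to_sup_of_normal_left hNp⟩ le_sup_left
    exact le_sup_right.trans h1
  have hq : ∀ q : ℕ, q.Prime → q ≠ p → ∀ N : Subgroup G, N.Normal → IsPGroup q N → N = ⊥ := by
    intro q hq hqp N hNn hNq
    have : Fact q.Prime := ⟨hq⟩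
    apply hN N hNn
    obtain ⟨k, hk⟩ := IsPGroup.iff_card.1 hNq
    rw [hk]
    exact Nat.Coprime.pow_left k ((Nat.coprime_primes hq hp).2 hqp)
  have hab : ∀ x ∈ F, ∀ y ∈ F, x * y = y * x := ha p hp F hFp
  -- the centralizer
  obtain ⟨C, hCdef⟩ : ∃ C, C = Subgroup.centralizer (F : Set G) := ⟨_, rfl⟩
  have hCn : C.Normal := by
    rw [hCdef]
    infer_instance
  have hCmem : ∀ y ∈ C, ∀ x ∈ F, y * x = x * y := by
    intro y hy x hx
    rw [hCdef, Subgroup.mem_centralizer_iff] at hy
    exact (hy x hx).symm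
  have fin : ∀ D : Subgroup G, D.Normal → D ≤ C → ⁅D, D⁆ ≤ F → D ≤ F := by
    intro D hD hDC hDF
    exact hmax D hD (Pool.Agent.Lib.MP_f44088_fb.FbAux.isP p D hD
      (Pool.Agent.Lib.MP_f44088_fb.FbAux.nilp F D hDF (fun y hy => hCmem y (hDC hy))) hq)
  have hCF : C ≤ F := by
    obtain ⟨k, hk⟩ := hs.solvable
    have h1 : ∀ j, Dn C j ≤ F → C ≤ F := by
      intro j
      induction j with
      | zero => exact fun h => h
      | succ j ihj =>
        intro h
        exact ihj (fin _ (Dn_normal C hCn j) (Dn_le C hCn j) h)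
    refine h1 k ((Dn_le_der C k).trans ?_)
    rw [hk]
    exact bot_le
  -- the Sylow subgroup
  obtain ⟨P, hP⟩ := hFp.exists_le_sylow
  have hPF : (P : Subgroup G) ≤ F := by
    refine le_trans ?_ hCF
    intro x hx
    rw [hCdef, Subgroup.mem_centralizer_iff]
    intro y hy
    exact ha p hp P P.isPGroup' y (hP hy) x hx
  have hidx : ¬ p ∣ F.index := by
    have e : (P : Subgroup G) = F := le_antisymm hPF hP
    rw [← e]
    exact P.not_dvd_index
  have hcard : Nat.card (G ⧸ F) = F.index := rfl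
  have hdvd : Nat.card (G ⧸ F) ∣ Nat.card G := Subgroup.card_quotient_dvd_card F
  have hpf : (Nat.card (G ⧸ F)).primeFactors ⊆ (Nat.card G).primeFactors.erase p := by
    intro q hq'
    have h1 := Nat.prime_of_mem_primeFactors hq'
    have h2 := Nat.dvd_of_mem_primeFactors hq'
    rw [Finset.mem_erase]
    refine ⟨?_, Nat.mem_primeFactors.2 ⟨h1, h2.trans hdvd, Nat.card_pos.ne'⟩⟩
    rintro rfl
    exact hidx (hcard ▸ h2)
  have hpm : p ∈ (Nat.card G).primeFactors := Nat.mem_primeFactors.2 ⟨hp, hd, Nat.card_pos.ne'⟩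
  have hle : (Nat.card (G ⧸ F)).primeFactors.card ≤ m := by
    have h1 := Finset.card_le_card hpf
    rw [Finset.card_erase_of_mem hpm] at h1
    omega
  have h3 : derivedSeries (G ⧸ F) m = ⊥ := ih (G ⧸ F) inferInstance (ha.quot F) hle
  have h4 : derivedSeries G m ≤ F := by
    have h5 := map_derivedSeries_le_derivedSeries (QuotientGroup.mk' F) m
    rw [h3] at h5
    intro x hx
    have h6 : QuotientGroup.mk' F x ∈ (⊥ : Subgroup (G ⧸ F)) := h5 (Subgroup.mem_map_of_mem _ hx)
    rw [Subgroup.mem_bot] at h6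
    exact (QuotientGroup.eq_one_iff x).1 h6
  rw [derivedSeries_succ, eq_bot_iff, Subgroup.commutator_le]
  intro a ha' b hb
  rw [Subgroup.mem_bot, commutatorElement_eq_one_iff_mul_comm]
  exact hab a (h4 ha') b (h4 hb)

theorem taunt : ∀ m : ℕ, St m := by
  intro m
  induction m with
  | zero =>
    intro G _ _ _ _ hc
    have h1 : (Nat.card G).primeFactors = ∅ := Finset.card_eq_zero.1 (Nat.le_zero.1 hc)
    have h2 : Nat.card G = 1 := by
      rcases Nat.primeFactors_eq_empty.1 h1 with h | h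
      · exact absurd h Nat.card_pos.ne'
      · exact h
    have h3 : Subsingleton G := (Nat.card_eq_one_iff_unique.1 h2).1
    exact Subsingleton.elim _ _
  | succ m ih =>
    intro G _ _ hs ha hc
    by_contra hne
    have hcard : Nat.card (derivedSeries G (m + 1)) ≠ 1 := by
      intro h
      exact hne (Subgroup.card_eq_one.1 h)
    obtain ⟨p, hp, hpd⟩ := Nat.exists_prime_and_dvd hcard
    have hpG : p ∣ Nat.card G := hpd.trans (Subgroup.card_subgroup_dvd_card _)
    have hfin : Set.Finite {N : Subgroup G | N.Normal ∧ (Nat.card N).Coprime p} := Set.toFinite _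
    obtain ⟨N, hN⟩ := hfin.exists_maximal ⟨⊥, inferInstance, by simp⟩
    obtain ⟨⟨hNn, hNc⟩, hNm⟩ := hN
    have hcc : Nat.card G = Nat.card (G ⧸ N) * Nat.card N := Subgroup.card_eq_card_quotient_mul_card_subgroup N
    have hdq : p ∣ Nat.card (G ⧸ N) := by
      rw [hcc] at hpG
      exact (Nat.Coprime.dvd_of_dvd_mul_right hNc.symm hpG)
    have hdvd : Nat.card (G ⧸ N) ∣ Nat.card G := Subgroup.card_quotient_dvd_card N
    have hle : (Nat.card (G ⧸ N)).primeFactors.card ≤ m + 1 :=
      (Finset.card_le_card (Nat.primeFactors_mono hdvd Nat.card_pos.ne')).trans hc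
    have hmin : ∀ M : Subgroup (G ⧸ N), M.Normal → (Nat.card M).Coprime p → M = ⊥ := by
      intro M hMn hMc
      have h1 : (M.comap (QuotientGroup.mk' N)).Normal := hMn.comap _
      have h2 : N ≤ M.comap (QuotientGroup.mk' N) := by
        intro x hx
        rw [Subgroup.mem_comap]
        have : QuotientGroup.mk' N x = 1 := (QuotientGroup.eq_one_iff x).2 hx
        rw [this]
        exact M.one_mem
      have h3 : Nat.card (M.comap (QuotientGroup.mk' N)) = Nat.card M * Nat.card N := by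
        have h4 : (M.comap (QuotientGroup.mk' N)).index = M.index :=
          M.index_comap_of_surjective (QuotientGroup.mk'_surjective N)
        have e1 := (M.comap (QuotientGroup.mk' N)).card_mul_index
        have e2 := M.card_mul_index
        have h0 : 0 < M.index := Nat.pos_of_ne_zero M.index_ne_zero_of_finite
        apply Nat.eq_of_mul_eq_mul_right h0
        rw [h4] at e1
        rw [e1, hcc, ← e2]
        ring
      have h5 : M.comap (QuotientGroup.mk' N) ≤ N := by
        apply hNm ⟨h1, ?_⟩ h2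
        rw [h3]
        exact Nat.Coprime.mul_left hMc hNc
      rw [eq_bot_iff]
      intro y hy
      obtain ⟨x, rfl⟩ := QuotientGroup.mk'_surjective N y
      rw [Subgroup.mem_bot]
      exact (QuotientGroup.eq_one_iff x).2 (h5 hy)
    have h6 := core m ih (G ⧸ N) inferInstance (ha.quot N) hle p hp hdq hmin
    have h7 : derivedSeries G (m + 1) ≤ N := by
      have h5 := map_derivedSeries_le_derivedSeries (QuotientGroup.mk' N) (m + 1)
      rw [h6] at h5
      intro x hx
      have h8 : QuotientGroup.mk' N x ∈ (⊥ : Subgroup (G ⧸ N)) := h5 (Subgroup.mem_map_of_mem _ hx)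
      rw [Subgroup.mem_bot] at h8
      exact (QuotientGroup.eq_one_iff x).1 h8
    have h9 : p ∣ Nat.card N := hpd.trans (Subgroup.card_dvd_of_le h7)
    have h10 := Nat.Coprime.eq_one_of_dvd hNc.symm h9
    exact hp.one_lt.ne' h10

end Pool.Agent.Lib.MP_f44088_fbt
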