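import Mathlib
import Pool.Agent.Lib.MP_f44088_al.FBT.Taunt
import Pool.Agent.Lib.MP_f44088_al.FB3.D3
import Pool.Agent.Lib.MP_f44088_al.FB4.Spec

/-! Soluble varieties of A-groups whose exponent has at most three prime divisors are finitely based. -/

set_option autoImplicit false

open scoped commutatorElement

namespace Pool.Agent.Lib.MP_f44088_fbt

open Pool.Agent.Lib.MP_f44088_fb (Sat)
open Pool.Agent.Lib.MP_f44088_fb.D3Aux (V comm closure_V)

/-- values of the commutator words come from finitely generated subgroups -/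
theorem V_local {G : Type} [Group G] : ∀ (j : ℕ) (a : G), a ∈ V G j →
    ∃ s : Finset G, ∀ K : Subgroup G, (∀ x ∈ s, x ∈ K) → ∃ b : K, b ∈ V K j ∧ (b : G) = a := by
  classical
  intro j
  induction j with
  | zero =>
    intro a _
    refine ⟨{a}, fun K hK => ⟨⟨a, hK a (Finset.mem_singleton_self a)⟩, Set.mem_univ _, rfl⟩⟩
  | succ j ih =>
    rintro a ⟨a1, h1, a2, h2, rfl⟩
    obtain ⟨s1, hs1⟩ := ih a1 h1
    obtain ⟨s2, hs2⟩ := ih a2 h2
    refine ⟨s1 ∪ s2, ?_⟩
    intro K hK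
    obtain ⟨b1, hb1, e1⟩ := hs1 K (fun x hx => hK x (Finset.mem_union_left _ hx))
    obtain ⟨b2, hb2, e2⟩ := hs2 K (fun x hx => hK x (Finset.mem_union_right _ hx))
    refine ⟨⁅b1, b2⁆, ⟨b1, hb1, b2, hb2, rfl⟩, ?_⟩
    rw [← e1, ← e2]
    rfl

/-- a subgroup satisfies the laws -/
theorem sat_sub {W : Set (FreeGroup ℕ)} {G : Type} [Group G] (h : Sat W G) (K : Subgroup G) : Sat W K :=
  fun w hw => Pool.Agent.Lib.MP_f44088_fb.inVar_of_injective K.subtype K.subtype_injective w (h w hw)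

/-- the derived length is at most 3 -/
theorem der3 (W : Set (FreeGroup ℕ))
    (hW : ∀ (G : Type) [Group G], Sat W G →
      (∀ s : Finset G, Finite (Subgroup.closure (s : Set G))) ∧
      (∀ p : ℕ, p.Prime → ∀ P : Sylow p G, ∀ x ∈ P, ∀ y ∈ P, x * y = y * x) ∧
      (Finite G → Group.IsSolvable G))
    (n : ℕ) (hn : 0 < n) (hn3 : n.primeFactors.card ≤ 3)
    (hexp : ∀ (G : Type) [Group G], Sat W G → ∀ x : G, x ^ n = 1)
    (G : Type) [Group G] (hG : Sat W G) : derivedSeries G 3 = ⊥ := by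
  rw [← closure_V G 3, Subgroup.closure_eq_bot_iff]
  intro a ha
  obtain ⟨s, hs⟩ := V_local 3 a ha
  obtain ⟨K, hKdef⟩ : ∃ K, K = Subgroup.closure (s : Set G) := ⟨_, rfl⟩
  have hfinK : Finite K := by
    rw [hKdef]
    exact (hW G hG).1 s
  have hsK : ∀ x ∈ s, x ∈ K := by
    intro x hx
    rw [hKdef]
    exact Subgroup.subset_closure hx
  obtain ⟨b, hb, rfl⟩ := hs K hsK
  have hK : Sat W K := sat_sub hG K
  obtain ⟨_, h2, h3⟩ := hW K hK
  have hag : AG K := by
    apply ag_of_sylow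
    intro r hr
    have : Fact r.Prime := ⟨hr⟩
    obtain ⟨P⟩ : Nonempty (Sylow r K) := inferInstance
    exact ⟨P, h2 r hr P⟩
  have hpf : (Nat.card K).primeFactors ⊆ n.primeFactors := by
    intro q hq
    have hqp := Nat.prime_of_mem_primeFactors hq
    have hqd := Nat.dvd_of_mem_primeFactors hq
    have : Fact q.Prime := ⟨hqp⟩
    obtain ⟨x, hx⟩ := exists_prime_orderOf_dvd_card' q hqd
    have h4 : orderOf x ∣ n := orderOf_dvd_of_pow_eq_one (hexp K hK x)
    rw [hx] at h4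
    exact Nat.mem_primeFactors.2 ⟨hqp, h4, hn.ne'⟩
  have h5 : derivedSeries K 3 = ⊥ :=
    taunt 3 K (h3 hfinK) hag ((Finset.card_le_card hpf).trans hn3)
  have h6 : b ∈ derivedSeries K 3 := by
    rw [← closure_V K 3]
    exact Subgroup.subset_closure hb
  rw [h5, Subgroup.mem_bot] at h6
  rw [Set.mem_singleton_iff, h6]
  rfl

/-- the corollary -/
theorem Cor : Pool.Agent.Lib.MP_f44088_fc.S_Fin →
    ∀ W : Set (FreeGroup ℕ), (∀ (G : Type) [Group G], Sat W G →
      (∀ s : Finset G, Finite (Subgroup.closure (s : Set G))) ∧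
      (∀ p : ℕ, p.Prime → ∀ P : Sylow p G, ∀ x ∈ P, ∀ y ∈ P, x * y = y * x) ∧
      (Finite G → Group.IsSolvable G)) →
    (∃ n : ℕ, 0 < n ∧ n.primeFactors.card ≤ 3 ∧
      ∀ (G : Type) [Group G], Sat W G → ∀ x : G, x ^ n = 1) →
    ∃ B : Finset (FreeGroup ℕ), ∀ (G : Type) [Group G], (Sat W G ↔ Sat (B : Set (FreeGroup ℕ)) G) := by
  rintro hFin W hW ⟨n, hn, hn3, hexp⟩
  apply hFin W
  intro G _ hG
  obtain ⟨h1, h2, _⟩ := hW G hG
  exact ⟨h1, h2, der3 W hW n hn hn3 hexp G hG⟩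

end Pool.Agent.Lib.MP_f44088_fbt
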